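import Pool.Agent.W276.GE.Basic
import Pool.Agent.W515.SLP.Bez3

/-!
# GE-HYP: a linear form avoiding the common zeros
-/

set_option autoImplicit false

open MvPolynomial

namespace Pool.Agent.W366.GE

open Pool.Agent.W515.SLP

/-- All forms of large degree lie in the ideal. -/
lemma exists_deg {n : ℕ} (g : Fin n → MvPolynomial (Fin n) ℂ)
    (hg : ∀ x : Fin n → ℂ, (∀ i, eval x (g i) = 0) → x = 0) :
    ∃ s : ℕ, ∀ x : MvPolynomial (Fin n) ℂ, x.IsHomogeneous s → x ∈ Ideal.span (Set.range g) := by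
  classical
  obtain ⟨I, hI⟩ : ∃ I, I = Ideal.span (Set.range g) := ⟨_, rfl⟩
  have hrad : ∀ i : Fin n, ∃ k : ℕ, (X i : MvPolynomial (Fin n) ℂ) ^ k ∈ I := by
    intro i
    have h1 : (X i : MvPolynomial (Fin n) ℂ) ∈ I.radical := by
      rw [← vanishingIdeal_zeroLocus_eq_radical (K := ℂ) I, mem_vanishingIdeal_iff]
      intro x hx
      have hx0 : x = 0 := by
        apply hg
        intro j
        have := hx (g j) (by rw [hI]; exact Ideal.subset_span ⟨j, rfl⟩)
        rwa [aeval_eq_eval] at this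
      rw [hx0]
      simp
    exact h1
  choose k hk using hrad
  obtain ⟨K, hK⟩ : ∃ K : ℕ, ∀ i, k i ≤ K := ⟨∑ i, k i, fun i =>
    Finset.single_le_sum (f := k) (fun _ _ => Nat.zero_le _) (Finset.mem_univ i)⟩
  have hK' : ∀ i : Fin n, (X i : MvPolynomial (Fin n) ℂ) ^ (K + 1) ∈ I := fun i =>
    I.pow_mem_of_pow_mem (hk i) ((hK i).trans (Nat.le_succ K))
  refine ⟨n * K + 1, fun x hx => ?_⟩
  rw [← hI, x.as_sum]
  refine I.sum_mem fun a ha => ?_
  have hdeg : ∑ i, a i = n * K + 1 := by
    have h1 : a.degree = n * K + 1 := by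
      by_contra hne
      exact (mem_support_iff.1 ha) (hx.coeff_eq_zero hne)
    rw [← h1, Finsupp.degree_eq_sum]
  obtain ⟨i, hi⟩ : ∃ i, K + 1 ≤ a i := by
    by_contra hcon
    push Not at hcon
    have : ∑ i, a i ≤ ∑ _i : Fin n, K := Finset.sum_le_sum fun i _ => by
      have := hcon i
      omega
    rw [Finset.sum_const, Finset.card_univ, Fintype.card_fin, smul_eq_mul] at this
    omega
  have h2 : a = Finsupp.single i (K + 1) + (a - Finsupp.single i (K + 1)) := by
    rw [add_tsub_cancel_of_le]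
    rw [Finsupp.single_le_iff]
    exact hi
  rw [h2]
  have h3 : monomial (Finsupp.single i (K + 1) + (a - Finsupp.single i (K + 1))) (coeff a x) =
      (X i : MvPolynomial (Fin n) ℂ) ^ (K + 1) *
        monomial (a - Finsupp.single i (K + 1)) (coeff a x) := by
    rw [X_pow_eq_monomial, monomial_mul, one_mul]
  have h4 : coeff (Finsupp.single i (K + 1) + (a - Finsupp.single i (K + 1))) x = coeff a x := by
    rw [← h2]
  rw [h4, h3]
  exact I.mul_mem_right _ (hK' i)

lemma gen_snoc {n N : ℕ} {z : Fin N → Fin n → ℂ} (hz : Gen z) {x : Fin n → ℂ} (hx : x ≠ 0)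
    (h : ∀ j, ∃ a b, x a * z j b ≠ x b * z j a) :
    Gen (Fin.snoc z x : Fin (N + 1) → Fin n → ℂ) := by
  constructor
  · intro j
    refine Fin.lastCases ?_ (fun i => ?_) j
    · rw [Fin.snoc_last]; exact hx
    · rw [Fin.snoc_castSucc]; exact hz.1 i
  · intro j
    refine Fin.lastCases ?_ (fun i => ?_) j
    · intro l
      refine Fin.lastCases ?_ (fun i' => ?_) l
      · intro hne
        exact absurd rfl hne
      · intro _
        rw [Fin.snoc_last, Fin.snoc_castSucc]
        exact h i'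
    · intro l
      refine Fin.lastCases ?_ (fun i' => ?_) l
      · intro _
        rw [Fin.snoc_last, Fin.snoc_castSucc]
        obtain ⟨a, b, hab⟩ := h i
        refine ⟨b, a, fun heq => hab ?_⟩
        linear_combination heq
      · intro hne
        rw [Fin.snoc_castSucc, Fin.snoc_castSucc]
        exact hz.2 i i' fun heq => hne (by rw [heq])

theorem hyp : Pool.Agent.W276.GE.S_hyp := by
  classical
  intro n l f hl hhom hzero
  -- the family
  obtain ⟨g, hgd⟩ : ∃ g : Fin (n + 1) → MvPolynomial (Fin (n + 1)) ℂ,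
    g = Fin.snoc (fun i : Fin n => l.get (i.cast hl.symm)) f := ⟨_, rfl⟩
  have hg1 : ∀ i : Fin n, g i.castSucc = l.get (i.cast hl.symm) := by
    intro i
    rw [hgd]
    exact Fin.snoc_castSucc (α := fun _ => MvPolynomial (Fin (n + 1)) ℂ) _ _ i
  have hg2 : g (Fin.last n) = f := by
    rw [hgd]
    exact Fin.snoc_last (α := fun _ => MvPolynomial (Fin (n + 1)) ℂ) _ _
  have hmem : ∀ i, g i ∈ f :: l := by
    intro i
    refine Fin.lastCases ?_ (fun j => ?_) i
    · rw [hg2]; exact List.mem_cons_self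
    · rw [hg1]; exact List.mem_cons_of_mem _ (List.get_mem _ _)
  have hsurj : ∀ p ∈ l, ∃ i : Fin n, g i.castSucc = p := by
    intro p hp
    obtain ⟨i, hi⟩ := List.get_of_mem hp
    refine ⟨i.cast hl, ?_⟩
    rw [hg1, ← hi]
    rfl
  have hd : ∀ i, ∃ e, 1 ≤ e ∧ (g i).IsHomogeneous e := fun i => hhom _ (hmem i)
  choose d hd1 hd2 using hd
  obtain ⟨s, hs⟩ := exists_deg g (by
    intro x hx
    apply hzero
    intro p hp
    rcases List.mem_cons.1 hp with h | h
    · rw [h, ← hg2]; exact hx _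
    · obtain ⟨i, hi⟩ := hsurj p h
      rw [← hi]; exact hx _)
  -- maximal family of zeros
  obtain ⟨P, hP⟩ : ∃ P : ℕ → Prop, P = fun N => ∃ z : Fin N → Fin (n + 1) → ℂ, Gen z ∧
    ∀ j (i : Fin n), eval (z j) (g i.castSucc) = 0 := ⟨_, rfl⟩
  have hbd : ∀ N, P N → N ≤ ∏ i : Fin n, d i.castSucc := by
    intro N hN
    rw [hP] at hN
    obtain ⟨z, hz, hz0⟩ := hN
    exact bezout hd2 hd1 hs z hz hz0
  have hP0 : P 0 := by
    rw [hP]
    refine ⟨Fin.elim0, ⟨fun j => j.elim0, fun j => j.elim0⟩, fun j => j.elim0⟩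
  have hmax : ∃ N, P N ∧ ¬ P (N + 1) := by
    by_contra hcon
    push Not at hcon
    have hall : ∀ N, P N := by
      intro N
      induction N with
      | zero => exact hP0
      | succ N ih => exact hcon N ih
    have := hbd _ (hall (∏ i : Fin n, d i.castSucc + 1))
    omega
  obtain ⟨N, hN, hN1⟩ := hmax
  rw [hP] at hN hN1
  obtain ⟨z, hz, hz0⟩ := hN
  obtain ⟨c, hc⟩ := exists_avoid (K := ℂ) _ (prod_lin_ne_zero hz)
  rw [map_prod, Finset.prod_ne_zero_iff] at hc
  refine ⟨lin c, lin_hom c, ?_⟩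
  intro x hx
  by_contra hx0
  have hxl : ∀ i : Fin n, eval x (g i.castSucc) = 0 := by
    intro i
    apply hx
    rw [hg1]
    exact List.mem_cons_of_mem _ (List.get_mem _ _)
  have hxc := hx (lin c) List.mem_cons_self
  rw [eval_lin] at hxc
  obtain ⟨j, hj⟩ : ∃ j, ∀ a b, x a * z j b = x b * z j a := by
    by_contra hcon
    push Not at hcon
    apply hN1
    refine ⟨Fin.snoc z x, gen_snoc hz hx0 hcon, fun j i => ?_⟩
    refine Fin.lastCases ?_ (fun j' => ?_) j
    · rw [Fin.snoc_last]; exact hxl i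
    · rw [Fin.snoc_castSucc]; exact hz0 j' i
  have hcj := hc j (Finset.mem_univ j)
  rw [eval_lin] at hcj
  apply hx0
  funext b
  have h1 : (∑ a, c a * x a) * z j b = x b * ∑ a, z j a * c a := by
    rw [Finset.sum_mul, Finset.mul_sum]
    refine Finset.sum_congr rfl fun a _ => ?_
    linear_combination c a * hj a b
  rw [hxc, zero_mul] at h1
  rcases mul_eq_zero.1 h1.symm with h | h
  · exact h
  · exact absurd h hcj

end Pool.Agent.W366.GE
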